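import Pool.Agent.ZP3.StmtsP

/-!
Squad ZP3, row PLN: plane equations over the algebraic numbers.
-/

set_option autoImplicit false

namespace Pool.Agent.ZP3.H65

open Pool.Agent.ZPT Pool.Agent.ZP3

noncomputable section

/-- the Noether normalisation of a domain of dimension one has at most one variable -/
theorem noether_le {R : Type} [CommRing R] [IsDomain R] [Algebra ℂ R]
    (hd : Ring.KrullDimLE 1 R) {s : ℕ} (g : MvPolynomial (Fin s) ℂ →ₐ[ℂ] R)
    (hg : Function.Injective g) (hint : g.IsIntegral) : s ≤ 1 := by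
  classical
  by_contra hs
  push Not at hs
  letI : Algebra (MvPolynomial (Fin s) ℂ) R := g.toRingHom.toAlgebra
  have hI : Algebra.IsIntegral (MvPolynomial (Fin s) ℂ) R := ⟨hint⟩
  obtain ⟨i0, hi0⟩ : ∃ i : Fin s, i = ⟨0, by omega⟩ := ⟨_, rfl⟩
  obtain ⟨i1, hi1⟩ : ∃ i : Fin s, i = ⟨1, by omega⟩ := ⟨_, rfl⟩
  have h01 : i1 ≠ i0 := by
    rw [hi0, hi1]
    intro h
    have := congrArg Fin.val h
    simp at this
  obtain ⟨φ, hφ⟩ : ∃ φ : MvPolynomial (Fin s) ℂ →ₐ[ℂ] MvPolynomial (Fin s) ℂ,
    φ = MvPolynomial.aeval (fun i => if i = i0 then 0 else MvPolynomial.X i) := ⟨_, rfl⟩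
  obtain ⟨ψ, hψ⟩ : ∃ ψ : MvPolynomial (Fin s) ℂ →ₐ[ℂ] ℂ,
    ψ = MvPolynomial.aeval (fun _ => (0 : ℂ)) := ⟨_, rfl⟩
  have hφ0 : φ (MvPolynomial.X i0) = 0 := by
    rw [hφ, MvPolynomial.aeval_X, if_pos rfl]
  have hφ1 : φ (MvPolynomial.X i1) = MvPolynomial.X i1 := by
    rw [hφ, MvPolynomial.aeval_X, if_neg h01]
  have hψφ : ψ.comp φ = ψ := by
    apply MvPolynomial.algHom_ext
    intro i
    rw [AlgHom.comp_apply, hφ, MvPolynomial.aeval_X]
    split_ifs with h
    · rw [map_zero, hψ, MvPolynomial.aeval_X]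
    · rfl
  obtain ⟨p, hp⟩ : ∃ p : Ideal (MvPolynomial (Fin s) ℂ), p = RingHom.ker φ.toRingHom := ⟨_, rfl⟩
  have hpp : p.IsPrime := by
    rw [hp]
    exact RingHom.ker_isPrime _
  have hp0 : MvPolynomial.X i0 ∈ p := by
    rw [hp]
    exact hφ0
  have hker : RingHom.ker (algebraMap (MvPolynomial (Fin s) ℂ) R) = ⊥ := by
    rw [RingHom.ker_eq_bot_iff_eq_zero]
    intro x hx
    apply hg
    rw [map_zero]
    exact hx
  obtain ⟨Q, hQ, hQp⟩ := Ideal.exists_ideal_over_prime_of_isIntegral_of_isDomain (S := R) p (by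
    rw [hker]
    exact bot_le)
  have hQ0 : Q ≠ ⊥ := by
    rintro rfl
    have h1 : MvPolynomial.X i0 ∈ Ideal.comap (algebraMap (MvPolynomial (Fin s) ℂ) R) ⊥ := by
      rw [hQp]
      exact hp0
    have h2 : MvPolynomial.X i0 ∈ RingHom.ker (algebraMap (MvPolynomial (Fin s) ℂ) R) := h1
    rw [hker, Ideal.mem_bot] at h2
    exact MvPolynomial.X_ne_zero i0 h2
  have hQm : Q.IsMaximal := hQ.isMaximal_of_ne_bot hQ0
  have hpm : p.IsMaximal := by
    rw [← hQp]
    exact Ideal.isMaximal_comap_of_isIntegral_of_isMaximal Q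
  have hle : p ≤ RingHom.ker ψ.toRingHom := by
    intro f hf
    rw [hp] at hf
    have h1 : φ f = 0 := hf
    have h2 : ψ f = 0 := by
      rw [← hψφ, AlgHom.comp_apply, h1, map_zero]
    exact h2
  have hne : RingHom.ker ψ.toRingHom ≠ ⊤ := RingHom.ker_ne_top _
  have heq := hpm.eq_of_le hne hle
  have h1 : MvPolynomial.X i1 ∈ p := by
    rw [heq]
    have h2 : ψ (MvPolynomial.X i1) = 0 := by rw [hψ, MvPolynomial.aeval_X]
    exact h2
  rw [hp] at h1
  have h2 : φ (MvPolynomial.X i1) = 0 := h1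
  rw [hφ1] at h2
  exact MvPolynomial.X_ne_zero i1 h2

/-- the transcendence degree of a domain of dimension one -/
theorem trdeg_le {R : Type} [CommRing R] [IsDomain R] [Algebra ℂ R] [Algebra.FiniteType ℂ R]
    (hd : Ring.KrullDimLE 1 R) : Algebra.trdeg ℂ R ≤ 1 := by
  obtain ⟨s, g, hg, hint⟩ := exists_integral_inj_algHom_of_fg ℂ R
  have hs := noether_le hd g hg hint
  obtain ⟨T, hT⟩ : ∃ T : Set R, T = Set.range (fun i : Fin s => g (MvPolynomial.X i)) := ⟨_, rfl⟩
  have hadj : Algebra.adjoin ℂ T = g.range := by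
    rw [hT, Algebra.adjoin_range_eq_range_aeval]
    congr 1
    apply MvPolynomial.algHom_ext
    intro i
    rw [MvPolynomial.aeval_X]
  have halg : Algebra.IsAlgebraic (Algebra.adjoin ℂ T) R := by
    have h1 : Algebra.IsIntegral (Algebra.adjoin ℂ T) R := by
      refine ⟨fun x => ?_⟩
      obtain ⟨f, hf, hfx⟩ := hint x
      have hmem : ∀ a, g a ∈ Algebra.adjoin ℂ T := by
        intro a
        rw [hadj]
        exact ⟨a, rfl⟩
      obtain ⟨g', hg'⟩ : ∃ g' : MvPolynomial (Fin s) ℂ →+* Algebra.adjoin ℂ T,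
        g' = (g.codRestrict (Algebra.adjoin ℂ T) hmem).toRingHom := ⟨_, rfl⟩
      refine ⟨f.map g', hf.map g', ?_⟩
      rw [Polynomial.eval₂_map]
      rw [hg']
      exact hfx
    exact h1.isAlgebraic
  refine (Algebra.IsAlgebraic.trdeg_le_cardinalMk ℂ T).trans ?_
  rw [hT]
  refine Cardinal.mk_range_le.trans ?_
  rw [Cardinal.mk_fin]
  exact_mod_cast hs

/-- two elements of a domain of dimension one are dependent -/
theorem dependent {R : Type} [CommRing R] [IsDomain R] [Algebra ℂ R] [Algebra.FiniteType ℂ R]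
    (hd : Ring.KrullDimLE 1 R) (x y : R) :
    ∃ G : MvPolynomial (Fin 2) ℂ, G ≠ 0 ∧ MvPolynomial.aeval ![x, y] G = 0 := by
  by_contra hcon
  push Not at hcon
  have h1 : AlgebraicIndependent ℂ ![x, y] := by
    rw [algebraicIndependent_iff]
    intro G hG
    by_contra h
    exact hcon G h hG
  have h2 := h1.cardinalMk_le_trdeg.trans (trdeg_le hd)
  rw [Cardinal.mk_fin] at h2
  have h3 : (2 : ℕ) ≤ 1 := by exact_mod_cast h2
  omega

/-- **Row PLN** -/
theorem pln (hLA : ZPT.LAStmt) : PLNStmt := by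
  classical
  intro n P hP hdim hQ i j
  by_cases hij : i = j
  · subst hij
    refine ⟨Polynomial.X - Polynomial.C Polynomial.X, ?_, ?_⟩
    · exact Polynomial.X_sub_C_ne_zero _
    · intro x _
      unfold evQ
      simp
  · have hD : Ring.KrullDimLE 1 (MvPolynomial (Fin n) ℂ ⧸ P) :=
      Ring.krullDimLE_iff.mpr (by rw [hdim]; exact le_rfl)
    obtain ⟨G, hG0, hG⟩ := dependent hD (Ideal.Quotient.mk P (MvPolynomial.X i))
      (Ideal.Quotient.mk P (MvPolynomial.X j))
    obtain ⟨H, hH⟩ : ∃ H : MvPolynomial (Fin n) ℂ, H = MvPolynomial.rename ![i, j] G := ⟨_, rfl⟩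
    have hinj : Function.Injective (![i, j] : Fin 2 → Fin n) := by
      intro a b hab
      fin_cases a <;> fin_cases b
      · rfl
      · exact absurd hab hij
      · exact absurd hab.symm hij
      · rfl
    have hH0 : H ≠ 0 := by
      rw [hH]
      intro h
      apply hG0
      apply MvPolynomial.rename_injective _ hinj
      rw [h, map_zero]
    have hHP : H ∈ P := by
      rw [← Ideal.Quotient.eq_zero_iff_mem, hH]
      have h1 : (Ideal.Quotient.mkₐ ℂ P).comp (MvPolynomial.rename ![i, j]) =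
          MvPolynomial.aeval ![Ideal.Quotient.mk P (MvPolynomial.X i),
            Ideal.Quotient.mk P (MvPolynomial.X j)] := by
        apply MvPolynomial.algHom_ext
        intro a
        rw [AlgHom.comp_apply, MvPolynomial.rename_X, MvPolynomial.aeval_X]
        fin_cases a <;> rfl
      have h2 := congrArg (fun t => t G) h1
      change Ideal.Quotient.mk P (MvPolynomial.rename ![i, j] G) = _ at h2
      rw [h2]
      exact hG
    obtain ⟨m₀, hm₀⟩ := MvPolynomial.ne_zero_iff.1 hH0
    obtain ⟨F, hFP, hFa, hF1, hFs⟩ := hLA n P hQ H hHP m₀ hm₀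
    have hsup : ∀ m ∈ F.support, ∀ l, l ≠ i → l ≠ j → m l = 0 := by
      intro m hm l hli hlj
      have h1 := hFs hm
      refine MvPolynomial.mem_support_notMem_vars_zero h1 ?_
      intro hl
      rw [hH] at hl
      have h2 := MvPolynomial.vars_rename ![i, j] G hl
      rw [Finset.mem_image] at h2
      obtain ⟨a, -, ha⟩ := h2
      fin_cases a
      · exact hli ha.symm
      · exact hlj ha.symm
    obtain ⟨c, hc⟩ : ∃ c : (Fin n →₀ ℕ) → Qb, ∀ m, ((c m : Qb) : ℂ) = MvPolynomial.coeff m F :=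
      ⟨fun m => ⟨MvPolynomial.coeff m F, mem_algebraicClosure_iff.mpr (hFa m)⟩, fun m => rfl⟩
    obtain ⟨W, hW⟩ : ∃ W : Polynomial (Polynomial Qb), W = ∑ m ∈ F.support,
      Polynomial.monomial (m j) (Polynomial.monomial (m i) (c m)) := ⟨_, rfl⟩
    have hm₀s : m₀ ∈ F.support := by
      rw [MvPolynomial.mem_support_iff, hF1]
      exact one_ne_zero
    refine ⟨W, ?_, ?_⟩
    · intro h0
      have h1 : (W.coeff (m₀ j)).coeff (m₀ i) = c m₀ := by
        rw [hW, Polynomial.finsetSum_coeff, Polynomial.finsetSum_coeff,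
          Finset.sum_eq_single m₀]
        · rw [Polynomial.coeff_monomial, if_pos rfl, Polynomial.coeff_monomial, if_pos rfl]
        · intro m hm hne
          rw [Polynomial.coeff_monomial]
          by_cases hj : m j = m₀ j
          · rw [if_pos hj, Polynomial.coeff_monomial, if_neg]
            intro hi
            apply hne
            ext l
            by_cases hli : l = i
            · rw [hli, hi]
            · by_cases hlj : l = j
              · rw [hlj, hj]
              · rw [hsup m hm l hli hlj, hsup m₀ hm₀s l hli hlj]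
          · rw [if_neg hj, Polynomial.coeff_zero]
        · intro h
          exact absurd hm₀s h
      rw [h0, Polynomial.coeff_zero, Polynomial.coeff_zero] at h1
      have h2 := hc m₀
      rw [← h1, hF1] at h2
      have h3 : ((0 : Qb) : ℂ) = 0 := rfl
      rw [h3] at h2
      exact zero_ne_one h2
    · intro x hx
      have h1 := hx F hFP
      rw [MvPolynomial.eval_eq'] at h1
      have h2 : evQ (RingHom.id Qb) W (x i) (x j) =
          ∑ m ∈ F.support, c m * x i ^ m i * x j ^ m j := by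
        unfold evQ
        rw [hW, Polynomial.map_sum, Polynomial.eval_finsetSum]
        refine Finset.sum_congr rfl fun m _ => ?_
        rw [Polynomial.map_monomial, Polynomial.eval_monomial, Polynomial.coe_eval₂RingHom,
          Polynomial.eval₂_monomial, RingHom.id_apply]
      rw [h2]
      apply Subtype.val_injective
      change ((∑ m ∈ F.support, c m * x i ^ m i * x j ^ m j : Qb) : ℂ) = 0
      rw [← h1]
      have h3 : ∀ z : Qb, (z : ℂ) = algebraMap Qb ℂ z := fun z => rfl
      rw [h3, map_sum]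
      refine Finset.sum_congr rfl fun m hm => ?_
      rw [map_mul, map_mul, map_pow, map_pow, ← h3, hc, mul_assoc]
      congr 1
      rw [← Finset.prod_subset (Finset.subset_univ ({i, j} : Finset (Fin n))),
        Finset.prod_pair hij]
      · rfl
      · intro l _ hl
        rw [Finset.mem_insert, Finset.mem_singleton, not_or] at hl
        rw [hsup m hm l hl.1 hl.2, pow_zero]

end

end Pool.Agent.ZP3.H65
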