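import Pool.Agent.ZP3.StmtsP

/-!
Squad ZP3, row PUM: Puiseux's theorem with coefficients in a finitely generated ring.
-/

set_option autoImplicit false

namespace Pool.Agent.ZP3.H65

open Pool.Agent.ZPT Pool.Agent.ZP3

noncomputable section

/-- the expansion as a ring homomorphism -/
def Ex (m : ℕ) (hm : m ≠ 0) : PowerSeries Qb →+* PowerSeries Qb :=
  (PowerSeries.expand (R := Qb) m hm : PowerSeries Qb →+* PowerSeries Qb)

theorem Ex_apply (m : ℕ) (hm : m ≠ 0) (f : PowerSeries Qb) :
    Ex m hm f = PowerSeries.expand m hm f := rfl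

theorem Ex_comp (m n : ℕ) (hm : m ≠ 0) (hn : n ≠ 0) :
    (Ex m hm).comp (Ex n hn) = Ex (m * n) (mul_ne_zero hm hn) := by
  ext1 f
  rw [RingHom.comp_apply, Ex_apply, Ex_apply, Ex_apply, PowerSeries.expand_mul]

/-- the conclusion of Puiseux's theorem -/
def Pz (F : Polynomial (PowerSeries Qb)) : Prop :=
  ∃ (m : ℕ) (hm : m ≠ 0) (s : Multiset (PowerSeries Qb)), (∀ ρ ∈ s, FG ρ) ∧
    F.map (Ex m hm) =
      (s.map fun ρ => (Polynomial.X - Polynomial.C ρ : Polynomial (PowerSeries Qb))).prod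

/-- the product of the linear factors -/
def lin (s : Multiset (PowerSeries Qb)) : Polynomial (PowerSeries Qb) :=
  (s.map fun ρ => (Polynomial.X - Polynomial.C ρ : Polynomial (PowerSeries Qb))).prod

theorem lin_zero : lin 0 = 1 := by
  unfold lin
  rw [Multiset.map_zero, Multiset.prod_zero]

theorem lin_cons (a : PowerSeries Qb) (s : Multiset (PowerSeries Qb)) :
    lin (a ::ₘ s) = (Polynomial.X - Polynomial.C a) * lin s := by
  unfold lin
  rw [Multiset.map_cons, Multiset.prod_cons]

theorem lin_add (s t : Multiset (PowerSeries Qb)) : lin (s + t) = lin s * lin t := by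
  unfold lin
  rw [Multiset.map_add, Multiset.prod_add]

theorem lin_monic (s : Multiset (PowerSeries Qb)) : (lin s).Monic :=
  Polynomial.monic_multiset_prod_of_monic _ _ fun ρ _ => Polynomial.monic_X_sub_C ρ

theorem lin_map (φ : PowerSeries Qb →+* PowerSeries Qb) (s : Multiset (PowerSeries Qb)) :
    (lin s).map φ = lin (s.map φ) := by
  induction s using Multiset.induction_on with
  | empty => rw [Multiset.map_zero, lin_zero, Polynomial.map_one]
  | cons a s ih =>
    rw [Multiset.map_cons, lin_cons, lin_cons, Polynomial.map_mul, ih, Polynomial.map_sub,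
      Polynomial.map_X, Polynomial.map_C]

theorem lin_scale (c : PowerSeries Qb) (s : Multiset (PowerSeries Qb)) :
    (lin s).scaleRoots c = lin (s.map fun ρ => c * ρ) := by
  induction s using Multiset.induction_on with
  | empty => rw [Multiset.map_zero, lin_zero, Polynomial.one_scaleRoots]
  | cons a s ih =>
    rw [Multiset.map_cons, lin_cons, lin_cons, Polynomial.mul_scaleRoots_of_noZeroDivisors, ih,
      Polynomial.X_sub_C_scaleRoots, mul_comm a c]

theorem lin_shift (b : PowerSeries Qb) (s : Multiset (PowerSeries Qb)) :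
    (lin s).comp (Polynomial.X - Polynomial.C b) = lin (s.map fun ρ => b + ρ) := by
  induction s using Multiset.induction_on with
  | empty => rw [Multiset.map_zero, lin_zero, Polynomial.one_comp]
  | cons a s ih =>
    rw [Multiset.map_cons, lin_cons, lin_cons, Polynomial.mul_comp, ih, Polynomial.sub_comp,
      Polynomial.X_comp, Polynomial.C_comp, Polynomial.C_add, sub_sub]

section fg

variable (fgs : FGSStmt)

include fgs

theorem fg_add {f g : PowerSeries Qb} (hf : FG f) (hg : FG g) : FG (f + g) := (fgs.1 f g hf hg).1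
theorem fg_mul {f g : PowerSeries Qb} (hf : FG f) (hg : FG g) : FG (f * g) := (fgs.1 f g hf hg).2.1
theorem fg_neg {f : PowerSeries Qb} (hf : FG f) : FG (-f) := (fgs.1 f f hf hf).2.2.1
theorem fg_C (a : Qb) : FG (PowerSeries.C a) := fgs.2.1 a
theorem fg_Ex {m : ℕ} (hm : m ≠ 0) {f : PowerSeries Qb} (hf : FG f) : FG (Ex m hm f) :=
  fgs.2.2.2.2.1 m hm f hf
theorem fg_one : FG (1 : PowerSeries Qb) := by
  have h := fg_C fgs 1
  rwa [map_one] at h
theorem fg_zero : FG (0 : PowerSeries Qb) := by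
  have h := fg_C fgs 0
  rwa [map_zero] at h
theorem fg_pow {f : PowerSeries Qb} (hf : FG f) (n : ℕ) : FG (f ^ n) := by
  induction n with
  | zero =>
    rw [pow_zero]
    exact fg_one fgs
  | succ n ih =>
    rw [pow_succ]
    exact fg_mul fgs ih hf

/-- the subring of the series with finitely generated coefficients -/
def fgR : Subring (PowerSeries Qb) where
  carrier := {f | FG f}
  mul_mem' := fun hf hg => fg_mul fgs hf hg
  one_mem' := fg_one fgs
  add_mem' := fun hf hg => fg_add fgs hf hg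
  zero_mem' := fg_zero fgs
  neg_mem' := fun hf => fg_neg fgs hf

theorem fg_comp {F : Polynomial (PowerSeries Qb)} (hF : ∀ i, FG (F.coeff i))
    {b : PowerSeries Qb} (hb : FG b) (i : ℕ) :
    FG ((F.comp (Polynomial.X + Polynomial.C b)).coeff i) := by
  have h1 : F ∈ Polynomial.lifts (fgR fgs).subtype := by
    rw [Polynomial.lifts_iff_coeff_lifts]
    intro k
    exact ⟨⟨F.coeff k, hF k⟩, rfl⟩
  obtain ⟨F', hF'⟩ := h1
  have h2 : F'.map (fgR fgs).subtype = F := hF'
  have h3 : F.comp (Polynomial.X + Polynomial.C b) =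
      (F'.comp (Polynomial.X + Polynomial.C ⟨b, hb⟩)).map (fgR fgs).subtype := by
    rw [Polynomial.map_comp, h2, Polynomial.map_add, Polynomial.map_X, Polynomial.map_C]
    rfl
  rw [h3, Polynomial.coeff_map]
  exact ((F'.comp (Polynomial.X + Polynomial.C ⟨b, hb⟩)).coeff i).2

/-! ### permanence properties -/

theorem Pz.mul {A H : Polynomial (PowerSeries Qb)} (hA : Pz A) (hH : Pz H) : Pz (A * H) := by
  obtain ⟨m, hm, s, hs, hs'⟩ := hA
  obtain ⟨n, hn, t, ht, ht'⟩ := hH
  refine ⟨n * m, mul_ne_zero hn hm, s.map (Ex n hn) + t.map (Ex m hm), ?_, ?_⟩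
  · intro ρ hρ
    rw [Multiset.mem_add, Multiset.mem_map, Multiset.mem_map] at hρ
    rcases hρ with ⟨σ, hσ, rfl⟩ | ⟨σ, hσ, rfl⟩
    · exact fg_Ex fgs hn (hs σ hσ)
    · exact fg_Ex fgs hm (ht σ hσ)
  · change _ = lin _
    rw [lin_add, ← lin_map, ← lin_map, Polynomial.map_mul]
    have h1 : A.map (Ex (n * m) (mul_ne_zero hn hm)) = (lin s).map (Ex n hn) := by
      rw [← Ex_comp n m hn hm, ← Polynomial.map_map, hs']
      rfl
    have h2 : H.map (Ex (n * m) (mul_ne_zero hn hm)) = (lin t).map (Ex m hm) := by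
      have h3 : Ex (n * m) (mul_ne_zero hn hm) = Ex (m * n) (mul_ne_zero hm hn) := by
        congr 1
        exact mul_comm n m
      rw [h3, ← Ex_comp m n hm hn, ← Polynomial.map_map, ht']
      rfl
    rw [h1, h2]

omit fgs in
theorem Pz.of_map {F : Polynomial (PowerSeries Qb)} {w : ℕ} (hw : w ≠ 0)
    (h : Pz (F.map (Ex w hw))) : Pz F := by
  obtain ⟨m, hm, s, hs, hs'⟩ := h
  refine ⟨m * w, mul_ne_zero hm hw, s, hs, ?_⟩
  rw [← Ex_comp m w hm hw, ← Polynomial.map_map, hs']

theorem Pz.of_shift {F : Polynomial (PowerSeries Qb)} {b : PowerSeries Qb} (hb : FG b)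
    (h : Pz (F.comp (Polynomial.X + Polynomial.C b))) : Pz F := by
  obtain ⟨m, hm, s, hs, hs'⟩ := h
  refine ⟨m, hm, s.map fun ρ => Ex m hm b + ρ, ?_, ?_⟩
  · intro ρ hρ
    rw [Multiset.mem_map] at hρ
    obtain ⟨σ, hσ, rfl⟩ := hρ
    exact fg_add fgs (fg_Ex fgs hm hb) (hs σ hσ)
  · change _ = lin _
    have h1 : (F.comp (Polynomial.X + Polynomial.C b)).comp (Polynomial.X - Polynomial.C b) = F := by
      rw [Polynomial.comp_assoc, Polynomial.add_comp, Polynomial.X_comp, Polynomial.C_comp,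
        sub_add_cancel, Polynomial.comp_X]
    rw [← lin_shift]
    conv_lhs => rw [← h1, Polynomial.map_comp, hs', Polynomial.map_sub, Polynomial.map_X,
      Polynomial.map_C]
    rfl

theorem Pz.scale {F : Polynomial (PowerSeries Qb)} (hF : F.Monic) {c : PowerSeries Qb}
    (hc : FG c) (h : Pz F) : Pz (F.scaleRoots c) := by
  obtain ⟨m, hm, s, hs, hs'⟩ := h
  refine ⟨m, hm, s.map fun ρ => Ex m hm c * ρ, ?_, ?_⟩
  · intro ρ hρ
    rw [Multiset.mem_map] at hρ
    obtain ⟨σ, hσ, rfl⟩ := hρ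
    exact fg_mul fgs (fg_Ex fgs hm hc) (hs σ hσ)
  · change _ = lin _
    rw [← lin_scale, Polynomial.map_scaleRoots, hs']
    · rfl
    · rw [hF.leadingCoeff, map_one]
      exact one_ne_zero

omit fgs in
theorem Pz.Xpow (fgs : FGSStmt) (d : ℕ) :
    Pz ((Polynomial.X : Polynomial (PowerSeries Qb)) ^ d) := by
  refine ⟨1, one_ne_zero, Multiset.replicate d 0, ?_, ?_⟩
  · intro ρ hρ
    rw [Multiset.eq_of_mem_replicate hρ]
    exact fg_zero fgs
  · rw [Multiset.map_replicate, Multiset.prod_replicate, Polynomial.map_pow, Polynomial.map_X,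
      Polynomial.C_0, sub_zero]

end fg

/-! ### the reduction of a polynomial -/

/-- A monic polynomial over the algebraic numbers without second coefficient which is not a power of
`X` has a coprime factorisation. -/
theorem exists_factor {f : Polynomial Qb} {d : ℕ} (hf : f.Monic) (hd : f.natDegree = d)
    (h1 : 1 ≤ d) (h2 : f.coeff (d - 1) = 0) {i : ℕ} (hi : i < d) (h3 : f.coeff i ≠ 0) :
    ∃ a h : Polynomial Qb, a.Monic ∧ h.Monic ∧ IsCoprime a h ∧ f = a * h ∧
      a.natDegree < d ∧ h.natDegree < d := by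
  have hcl : IsAlgClosed Qb := (algebraicClosure.isAlgClosure ℚ ℂ).isAlgClosed
  have hf0 : f ≠ 0 := hf.ne_zero
  have hdeg : f.degree ≠ 0 := by
    rw [Polynomial.degree_eq_natDegree hf0, hd]
    intro h
    have h4 : d = 0 := by exact_mod_cast h
    omega
  obtain ⟨c, hc⟩ := IsAlgClosed.exists_root f hdeg
  obtain ⟨h, hh, hnd⟩ := Polynomial.exists_eq_pow_rootMultiplicity_mul_and_not_dvd f hf0 c
  obtain ⟨k, hk⟩ : ∃ k, k = f.rootMultiplicity c := ⟨_, rfl⟩
  rw [← hk] at hh
  have hk1 : 0 < k := by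
    rw [hk, Polynomial.rootMultiplicity_pos hf0]
    exact hc
  have ham : ((Polynomial.X - Polynomial.C c) ^ k).Monic := (Polynomial.monic_X_sub_C c).pow k
  have hhm : h.Monic := by
    have h4 : ((Polynomial.X - Polynomial.C c) ^ k * h).Monic := by rw [← hh]; exact hf
    exact ham.of_mul_monic_left h4
  have hadeg : ((Polynomial.X - Polynomial.C c) ^ k).natDegree = k := by
    rw [Polynomial.natDegree_pow, Polynomial.natDegree_X_sub_C, mul_one]
  have hsum : k + h.natDegree = d := by
    rw [← hd, hh, ham.natDegree_mul hhm, hadeg]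
  have hkd : k ≠ d := by
    intro hkd
    have h4 : h.natDegree = 0 := by omega
    have h5 : h = 1 := hhm.natDegree_eq_zero.1 h4
    rw [h5, mul_one, hkd] at hh
    have h6 : f.coeff (d - 1) = (-c) ^ (d - (d - 1)) * (d.choose (d - 1)) := by
      rw [hh, sub_eq_add_neg, ← Polynomial.C_neg, Polynomial.coeff_X_add_C_pow]
    rw [h2] at h6
    have h7 : d - (d - 1) = 1 := by omega
    have h8 : d.choose (d - 1) = d := by
      rw [Nat.choose_symm_of_eq_add (show d = (d - 1) + 1 by omega), Nat.choose_one_right]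
    rw [h7, h8, pow_one] at h6
    have h9 : (d : Qb) ≠ 0 := by
      rw [Nat.cast_ne_zero]
      omega
    have h10 : c = 0 := by
      rcases mul_eq_zero.1 h6.symm with h | h
      · exact neg_eq_zero.1 h
      · exact absurd h h9
    rw [h10, Polynomial.C_0, sub_zero] at hh
    apply h3
    rw [hh, Polynomial.coeff_X_pow, if_neg]
    omega
  refine ⟨(Polynomial.X - Polynomial.C c) ^ k, h, ham, hhm, ?_, hh, ?_, ?_⟩
  · exact ((Polynomial.irreducible_X_sub_C c).coprime_iff_not_dvd.2 hnd).pow_left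
  · rw [hadeg]
    omega
  · omega

/-- the second coefficient of a shifted polynomial -/
theorem coeff_shift {F : Polynomial (PowerSeries Qb)} (hF : F.Monic) {d : ℕ}
    (hd : F.natDegree = d) (h1 : 1 ≤ d) (b : PowerSeries Qb) :
    (F.comp (Polynomial.X + Polynomial.C b)).coeff (d - 1) = F.coeff (d - 1) + d * b := by
  rw [← Polynomial.taylor_apply, Polynomial.taylor_coeff]
  have h2 : (Polynomial.hasseDeriv (d - 1) F) =
      Polynomial.C (F.coeff (d - 1)) + Polynomial.C (d : PowerSeries Qb) * Polynomial.X := by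
    ext1 n
    rw [Polynomial.hasseDeriv_coeff, Polynomial.coeff_add, Polynomial.coeff_C,
      Polynomial.coeff_C_mul, Polynomial.coeff_X]
    rcases Nat.eq_zero_or_pos n with h | h
    · rw [h, zero_add, Nat.choose_self, if_pos rfl, if_neg (by omega), mul_zero, add_zero,
        Nat.cast_one, one_mul]
    · rw [if_neg (by omega), zero_add]
      by_cases hn : n = 1
      · rw [if_pos hn.symm, hn, mul_one]
        have h3 : 1 + (d - 1) = d := by omega
        have h4 : d.choose (d - 1) = d := by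
          rw [Nat.choose_symm_of_eq_add (show d = (d - 1) + 1 by omega), Nat.choose_one_right]
        rw [h3, h4]
        have h5 : F.coeff d = 1 := by
          rw [← hd]
          exact hF.coeff_natDegree
        rw [h5, mul_one]
      · rw [if_neg (fun h => hn h.symm), mul_zero, Polynomial.coeff_eq_zero_of_natDegree_lt,
          mul_zero]
        omega
  rw [h2, Polynomial.eval_add, Polynomial.eval_C, Polynomial.eval_mul, Polynomial.eval_C,
    Polynomial.eval_X]

/-- division by a power of the variable -/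
theorem exists_quot (w u e : ℕ) (hw : w ≠ 0) (a : PowerSeries Qb)
    (h : a ≠ 0 → u * e ≤ a.order.toNat * w) :
    ∃ b : PowerSeries Qb, Ex w hw a = PowerSeries.X ^ (u * e) * b := by
  have h1 : PowerSeries.X ^ (u * e) ∣ Ex w hw a := by
    rw [PowerSeries.X_pow_dvd_iff]
    intro n hn
    rw [Ex_apply]
    by_cases hdvd : w ∣ n
    · obtain ⟨k, rfl⟩ := hdvd
      rw [PowerSeries.coeff_expand_mul]
      by_cases ha : a = 0
      · rw [ha, map_zero]
      · apply PowerSeries.coeff_of_lt_order_toNat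
        have h2 := h ha
        have h3 : w * k < w * a.order.toNat := by
          calc w * k < u * e := hn
            _ ≤ a.order.toNat * w := h2
            _ = w * a.order.toNat := mul_comm _ _
        exact Nat.lt_of_mul_lt_mul_left h3
    · exact PowerSeries.coeff_expand_of_not_dvd w hw a hdvd
  exact h1

/-- the Newton polygon step -/
theorem newton (fgs : FGSStmt) {F : Polynomial (PowerSeries Qb)} (hF : F.Monic) {d : ℕ}
    (hd : F.natDegree = d) (h1 : 1 ≤ d) (hFG : ∀ i, FG (F.coeff i)) (h2 : F.coeff (d - 1) = 0)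
    (h3 : ∃ i < d, F.coeff i ≠ 0) :
    ∃ (w : ℕ) (hw : w ≠ 0) (u : ℕ) (F₁ : Polynomial (PowerSeries Qb)), F₁.Monic ∧
      F₁.natDegree = d ∧ (∀ i, FG (F₁.coeff i)) ∧ F₁.coeff (d - 1) = 0 ∧
      (∃ i < d, PowerSeries.constantCoeff (F₁.coeff i) ≠ 0) ∧
      F.map (Ex w hw) = F₁.scaleRoots (PowerSeries.X ^ u) := by
  classical
  obtain ⟨I, hI⟩ : ∃ I : Finset ℕ, I = (Finset.range d).filter fun i => F.coeff i ≠ 0 := ⟨_, rfl⟩
  have hIne : I.Nonempty := by
    obtain ⟨i, hi, hi'⟩ := h3
    refine ⟨i, ?_⟩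
    rw [hI, Finset.mem_filter, Finset.mem_range]
    exact ⟨hi, hi'⟩
  obtain ⟨i₀, hi₀, hmin⟩ := Finset.exists_min_image I
    (fun i => ((F.coeff i).order.toNat : ℚ) / ((d - i : ℕ) : ℚ)) hIne
  rw [hI, Finset.mem_filter, Finset.mem_range] at hi₀
  obtain ⟨hi₀d, hi₀0⟩ := hi₀
  obtain ⟨w, hwdef⟩ : ∃ w, w = d - i₀ := ⟨_, rfl⟩
  obtain ⟨u, hudef⟩ : ∃ u, u = (F.coeff i₀).order.toNat := ⟨_, rfl⟩
  have hw : w ≠ 0 := by omega
  have hord : ∀ i < d, F.coeff i ≠ 0 → u * (d - i) ≤ (F.coeff i).order.toNat * w := by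
    intro i hi hi'
    have h4 := hmin i (by
      rw [hI, Finset.mem_filter, Finset.mem_range]
      exact ⟨hi, hi'⟩)
    have h5 : (0 : ℚ) < ((d - i₀ : ℕ) : ℚ) := by
      rw [Nat.cast_pos]
      omega
    have h6 : (0 : ℚ) < ((d - i : ℕ) : ℚ) := by
      rw [Nat.cast_pos]
      omega
    rw [div_le_div_iff₀ h5 h6, ← hudef, ← hwdef] at h4
    exact_mod_cast h4
  have hq : ∀ i, ∃ b : PowerSeries Qb, i < d → Ex w hw (F.coeff i) = PowerSeries.X ^ (u * (d - i)) * b := by
    intro i
    by_cases hi : i < d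
    · obtain ⟨b, hb⟩ := exists_quot w u (d - i) hw (F.coeff i) (hord i hi)
      exact ⟨b, fun _ => hb⟩
    · exact ⟨0, fun h => absurd h hi⟩
  choose b hb using hq
  have hbFG : ∀ i < d, FG (b i) := by
    intro i hi
    apply fgs.2.2.2.2.2 (u * (d - i))
    rw [← hb i hi]
    exact fg_Ex fgs hw (hFG i)
  obtain ⟨R, hR⟩ : ∃ R : Polynomial (PowerSeries Qb), R = ∑ i ∈ Finset.range d,
    Polynomial.monomial i (b i) := ⟨_, rfl⟩
  have hRc : ∀ i, R.coeff i = if i < d then b i else 0 := by
    intro i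
    rw [hR, Polynomial.finsetSum_coeff]
    simp only [Polynomial.coeff_monomial]
    rw [Finset.sum_ite_eq']
    simp only [Finset.mem_range]
  obtain ⟨F₁, hF₁⟩ : ∃ F₁ : Polynomial (PowerSeries Qb), F₁ = Polynomial.X ^ d + R := ⟨_, rfl⟩
  have hRdeg : R.degree < d := by
    rw [Polynomial.degree_lt_iff_coeff_zero]
    intro i hi
    rw [hRc, if_neg (by omega)]
  have hF₁c : ∀ i, F₁.coeff i = if i = d then 1 else if i < d then b i else 0 := by
    intro i
    rw [hF₁, Polynomial.coeff_add, Polynomial.coeff_X_pow, hRc]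
    by_cases h : i = d
    · rw [if_pos h, if_pos h, if_neg (by omega), add_zero]
    · rw [if_neg h, if_neg h, zero_add]
  have hm : F₁.Monic := by
    rw [hF₁]
    exact Polynomial.monic_X_pow_add hRdeg
  have hdeg : F₁.natDegree = d := by
    rw [hF₁]
    have h4 := Polynomial.degree_add_eq_left_of_degree_lt (p := Polynomial.X ^ d) (q := R) (by
      rw [Polynomial.degree_X_pow]
      exact hRdeg)
    rw [Polynomial.degree_X_pow] at h4
    exact Polynomial.natDegree_eq_of_degree_eq_some h4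
  have hXne : ∀ n, (PowerSeries.X : PowerSeries Qb) ^ n ≠ 0 := fun n =>
    pow_ne_zero n PowerSeries.X_ne_zero
  refine ⟨w, hw, u, F₁, hm, hdeg, ?_, ?_, ⟨i₀, hi₀d, ?_⟩, ?_⟩
  · intro i
    rw [hF₁c]
    split_ifs with h4 h5
    · exact fg_one fgs
    · exact hbFG i h5
    · exact fg_zero fgs
  · rw [hF₁c, if_neg (by omega), if_pos (by omega)]
    have h4 := hb (d - 1) (by omega)
    rw [h2, map_zero] at h4
    rcases mul_eq_zero.1 h4.symm with h | h
    · exact absurd h (hXne _)
    · exact h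
  · rw [hF₁c, if_neg (by omega), if_pos hi₀d]
    have h4 := hb i₀ hi₀d
    intro h5
    have h6 := congrArg (PowerSeries.coeff (u * (d - i₀))) h4
    rw [PowerSeries.coeff_X_pow_mul', if_pos le_rfl, Nat.sub_self,
      PowerSeries.coeff_zero_eq_constantCoeff_apply, h5, ← hwdef, mul_comm u w, Ex_apply,
      PowerSeries.coeff_expand_mul, hudef] at h6
    exact PowerSeries.coeff_order hi₀0 h6
  · ext1 i
    rw [Polynomial.coeff_map, Polynomial.coeff_scaleRoots, hdeg, hF₁c, ← pow_mul]
    by_cases h4 : i = d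
    · rw [if_pos h4, h4, Nat.sub_self, mul_zero, pow_zero, mul_one]
      have h5 : F.coeff d = 1 := by
        rw [← hd]
        exact hF.coeff_natDegree
      rw [h5, map_one]
    · rw [if_neg h4]
      by_cases h5 : i < d
      · rw [if_pos h5, hb i h5, mul_comm]
      · rw [if_neg h5, zero_mul, Polynomial.coeff_eq_zero_of_natDegree_lt, map_zero]
        omega

theorem main (puf : PUFStmt) (fgs : FGSStmt) : ∀ (d : ℕ) (F : Polynomial (PowerSeries Qb)),
    F.Monic → F.natDegree = d → (∀ i, FG (F.coeff i)) → Pz F := by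
  intro d
  induction d using Nat.strong_induction_on with
  | _ d ih =>
  intro F hF hd hFG
  rcases Nat.eq_zero_or_pos d with h0 | h0
  · have h1 : F = 1 := hF.natDegree_eq_zero.1 (by rw [hd, h0])
    rw [h1]
    have h2 := Pz.Xpow fgs 0
    rwa [pow_zero] at h2
  -- the shift
  obtain ⟨b, hb⟩ : ∃ b : PowerSeries Qb, b = -(PowerSeries.C ((d : Qb)⁻¹) * F.coeff (d - 1)) :=
    ⟨_, rfl⟩
  have hbFG : FG b := by
    rw [hb]
    exact fg_neg fgs (fg_mul fgs (fg_C fgs _) (hFG _))
  apply Pz.of_shift fgs hbFG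
  obtain ⟨G, hG⟩ : ∃ G, G = F.comp (Polynomial.X + Polynomial.C b) := ⟨_, rfl⟩
  rw [← hG]
  have hGm : G.Monic := by
    rw [hG]
    exact hF.comp_X_add_C b
  have hGd : G.natDegree = d := by
    rw [hG, Polynomial.natDegree_comp, Polynomial.natDegree_X_add_C, mul_one, hd]
  have hGFG : ∀ i, FG (G.coeff i) := by
    rw [hG]
    exact fg_comp fgs hFG hbFG
  have hG1 : G.coeff (d - 1) = 0 := by
    rw [hG, coeff_shift hF hd h0 b, hb]
    have h2 : (d : PowerSeries Qb) = PowerSeries.C (d : Qb) := by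
      rw [map_natCast]
    rw [h2, mul_neg, ← mul_assoc, ← map_mul, mul_inv_cancel₀, map_one, one_mul, add_neg_cancel]
    rw [Nat.cast_ne_zero]
    omega
  by_cases h3 : ∃ i < d, G.coeff i ≠ 0
  · obtain ⟨w, hw, u, F₁, hm, hdeg, hFG1, hF1, ⟨i, hi, hi0⟩, hmap⟩ :=
      newton fgs hGm hGd h0 hGFG hG1 h3
    apply Pz.of_map hw
    rw [hmap]
    apply Pz.scale fgs hm (fg_pow fgs fgs.2.2.1 u)
    obtain ⟨f, hf⟩ : ∃ f, f = F₁.map (PowerSeries.constantCoeff (R := Qb)) := ⟨_, rfl⟩
    have hfm : f.Monic := by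
      rw [hf]
      exact hm.map _
    have hfd : f.natDegree = d := by
      rw [hf, hm.natDegree_map, hdeg]
    obtain ⟨a, h, ha, hh, hcop, hfa, had, hhd⟩ := exists_factor hfm hfd h0 (by
      rw [hf, Polynomial.coeff_map, hF1, map_zero]) hi (by
      rw [hf, Polynomial.coeff_map]
      exact hi0)
    obtain ⟨A, H, hA, hH, hAFG, hHFG, hAH, hAd, hHd⟩ := puf F₁ hm hFG1 a h ha hh hcop (by
      rw [← hf]
      exact hfa)
    rw [hAH]
    exact Pz.mul fgs (ih _ had A hA hAd hAFG) (ih _ hhd H hH hHd hHFG)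
  · push Not at h3
    have h4 : G = Polynomial.X ^ d := by
      ext1 i
      rw [Polynomial.coeff_X_pow]
      by_cases h5 : i = d
      · rw [if_pos h5, h5, ← hGd]
        exact hGm.coeff_natDegree
      · rw [if_neg h5]
        by_cases h6 : i < d
        · exact h3 i h6
        · apply Polynomial.coeff_eq_zero_of_natDegree_lt
          omega
    rw [h4]
    exact Pz.Xpow fgs d

/-- **Row PUM** -/
theorem pum (puf : PUFStmt) (fgs : FGSStmt) : PUMStmt := by
  intro F hF hFG
  exact main puf fgs _ F hF rfl hFG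

end

end Pool.Agent.ZP3.H65
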